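import Mathlib
import Pool.Agent.Helper56.SchurExample

set_option autoImplicit false

namespace Pool.Agent.Results.MP_0f3876_co.SchurRatioIntervals

open Finset

/-- The alternant `det (X_i ^ (l j))` as a polynomial in `N` variables. -/
noncomputable def alternant {N : ℕ} (l : Fin N → ℕ) : MvPolynomial (Fin N) ℝ :=
  (Matrix.of fun i j : Fin N => (MvPolynomial.X i : MvPolynomial (Fin N) ℝ) ^ l j).det

/-- The Schur polynomial: the polynomial whose product with `det (X_i ^ (N - 1 - j))` is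
`det (X_i ^ (lam j + (N - 1 - j)))` (indices `j = 0, ..., N - 1`). -/
noncomputable def schur {N : ℕ} (lam : Fin N → ℕ) : MvPolynomial (Fin N) ℝ :=
  Classical.epsilon fun P : MvPolynomial (Fin N) ℝ =>
    P * alternant (fun j : Fin N => N - 1 - j) = alternant (fun j : Fin N => lam j + (N - 1 - j))

/-- The ratio of Schur polynomials at a point. -/
noncomputable def ratio {N : ℕ} (lam mu : Fin N → ℕ) (x : Fin N → ℝ) : ℝ :=
  MvPolynomial.eval x (schur lam) / MvPolynomial.eval x (schur mu)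

/-- The ratio `s_lam / s_mu` is minimized at `(1, ..., 1)` on `I ^ N`. -/
def MinimizedAtOne {N : ℕ} (lam mu : Fin N → ℕ) (I : Set ℝ) : Prop :=
  ∀ x : Fin N → ℝ, (∀ i, x i ∈ I) → ratio lam mu (fun _ => 1) ≤ ratio lam mu x

/-- The exponents `lam_j + N - j`, `j = 1, ..., N` (with the indices `0, ..., N - 1`:
`lam j + (N - 1 - j)`). -/
def exponents {N : ℕ} (lam : Fin N → ℕ) (j : Fin N) : ℕ := lam j + (N - 1 - j)

/-- The sum over the sets `A` of `k` indices of
`q ^ (sum of the l_i, i in A)` times the product of the `1 / (l_j - l_i)`, `i` in `A`, `j` not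
in `A`. -/
noncomputable def subsetSum {N : ℕ} (k : ℕ) (l : Fin N → ℕ) (q : ℝ) : ℝ :=
  ∑ A ∈ powersetCard k (univ : Finset (Fin N)),
    q ^ (∑ i ∈ A, l i) * ∏ i ∈ A, ∏ j ∈ Aᶜ, ((l j : ℝ) - l i)⁻¹

theorem eval_alternant {N : ℕ} (l : Fin N → ℕ) (x : Fin N → ℝ) :
    MvPolynomial.eval x (alternant l) = Pool.Agent.Helper56.SchurBase.D l x := by
  unfold alternant Pool.Agent.Helper56.SchurBase.D
  rw [RingHom.map_det]
  congr 1
  ext i j
  simp

theorem alternant_ne_zero {N : ℕ} : alternant (fun j : Fin N => N - 1 - j) ≠ 0 := by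
  intro h
  have h1 := eval_alternant (fun j : Fin N => N - 1 - j) (fun i : Fin N => ((i : ℕ) : ℝ) + 1)
  rw [h, map_zero] at h1
  have hinj : Function.Injective (fun i : Fin N => ((i : ℕ) : ℝ) + 1) := by
    intro i j hij
    have : ((i : ℕ) : ℝ) = (j : ℕ) := by simpa using hij
    exact Fin.ext (by exact_mod_cast this)
  have h2 := Pool.Agent.Helper56.SchurClass.S_mul_D (fun _ : Fin N => 0)
    (fun _ _ _ => le_rfl) (fun i : Fin N => ((i : ℕ) : ℝ) + 1)
  have h3 := Pool.Agent.Helper56.SchurIdentity.V_ne_zero hinj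
  rw [Pool.Agent.Helper56.SchurIdentity.V_eq_D] at h3
  apply h3
  have h4 := Pool.Agent.Helper56.SchurClass.D_rev (fun j : Fin N => N - 1 - j)
    (fun i : Fin N => ((i : ℕ) : ℝ) + 1)
  rw [← h1, mul_zero] at h4
  rw [← h4]
  congr 1
  funext j
  simp only [Fin.val_rev]
  have := j.isLt
  omega

theorem schur_spec {N : ℕ} (lam : Fin N → ℕ) (h : Antitone lam) :
    schur lam * alternant (fun j : Fin N => N - 1 - j) =
      alternant (fun j : Fin N => lam j + (N - 1 - j)) := by
  unfold schur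
  apply Classical.epsilon_spec (p := fun P : MvPolynomial (Fin N) ℝ =>
    P * alternant (fun j : Fin N => N - 1 - j) = alternant (fun j : Fin N => lam j + (N - 1 - j)))
  refine ⟨Pool.Agent.Helper56.SchurClass.SP N (Pool.Agent.Helper56.SchurClass.ex lam), ?_⟩
  apply MvPolynomial.funext
  intro x
  rw [map_mul, eval_alternant, eval_alternant, Pool.Agent.Helper56.SchurClass.eval_SP]
  exact Pool.Agent.Helper56.SchurClass.S_mul_D lam h x

theorem eval_schur {N : ℕ} (lam : Fin N → ℕ) (h : Antitone lam) (x : Fin N → ℝ) :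
    MvPolynomial.eval x (schur lam) =
      Pool.Agent.Helper56.SchurBase.S N (Pool.Agent.Helper56.SchurClass.ex lam) x := by
  rw [← Pool.Agent.Helper56.SchurClass.eval_SP]
  congr 1
  apply mul_right_cancel₀ (alternant_ne_zero (N := N))
  rw [schur_spec lam h]
  symm
  apply MvPolynomial.funext
  intro x
  rw [map_mul, eval_alternant, eval_alternant, Pool.Agent.Helper56.SchurClass.eval_SP]
  exact Pool.Agent.Helper56.SchurClass.S_mul_D lam h x

theorem ratio_eq {N : ℕ} (lam mu : Fin N → ℕ) (hl : Antitone lam) (hm : Antitone mu)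
    (x : Fin N → ℝ) : ratio lam mu x = Pool.Agent.Helper56.SchurVertex.r
      (Pool.Agent.Helper56.SchurClass.ex lam) (Pool.Agent.Helper56.SchurClass.ex mu) x := by
  unfold ratio Pool.Agent.Helper56.SchurVertex.r
  rw [eval_schur lam hl, eval_schur mu hm]

theorem minimized_iff {N : ℕ} (lam mu : Fin N → ℕ) (hl : Antitone lam) (hm : Antitone mu)
    (I : Set ℝ) : MinimizedAtOne lam mu I ↔ Pool.Agent.Helper56.SchurClass.Min
      (Pool.Agent.Helper56.SchurClass.ex lam) (Pool.Agent.Helper56.SchurClass.ex mu) I := by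
  unfold MinimizedAtOne Pool.Agent.Helper56.SchurClass.Min
  simp only [ratio_eq lam mu hl hm]

theorem subsetSum_eq {N : ℕ} (k : ℕ) (lam : Fin N → ℕ) (q : ℝ) :
    subsetSum k (exponents lam) q =
      Pool.Agent.Helper56.SchurTwo.G k (fun j : Fin N => lam j + (N - 1 - j)) q := rfl

theorem vertex_iff {N : ℕ} (lam mu : Fin N → ℕ) (hl : Antitone lam) (hm : Antitone mu)
    (a b : ℝ) (ha : 0 < a) (hab : a < b) (k : ℕ) (hk : k ≤ N) :
    ratio lam mu (fun _ => 1) ≤ ratio lam mu (fun i : Fin N => if (i : ℕ) < k then a else b) ↔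
      b ^ (∑ i, mu i) * subsetSum k (exponents mu) (a / b) ≤
        b ^ (∑ i, lam i) * subsetSum k (exponents lam) (a / b) := by
  have he := Pool.Agent.Helper56.SchurClass.ex_strictMono lam hl
  have he' := Pool.Agent.Helper56.SchurClass.ex_strictMono mu hm
  rw [ratio_eq lam mu hl hm, ratio_eq lam mu hl hm,
    Pool.Agent.Helper56.SchurExplicit.vertex_iff _ _ he he' a b ha hab k hk,
    Pool.Agent.Helper56.SchurClass.sum_ex, Pool.Agent.Helper56.SchurClass.sum_ex,
    Pool.Agent.Helper56.SchurExplicit.G_ex, Pool.Agent.Helper56.SchurExplicit.G_ex,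
    pow_add, pow_add, subsetSum_eq, subsetSum_eq]
  have hc : (0 : ℝ) < b ^ (∑ j : Fin N, (j : ℕ)) := pow_pos (ha.trans hab) _
  rw [mul_right_comm, mul_right_comm (b ^ (∑ j, lam j))]
  exact mul_le_mul_iff_left₀ hc

/-- Complete classification, for every interval `I` of positive length in `(0, ∞)` containing
`1`, of the pairs of non-increasing tuples whose Schur ratio is minimized at `(1, ..., 1)` on
`I ^ N`; for an interval which is bounded away from `0` and `∞` by `N + 1` explicit inequalities,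
the conditions at the vertices `(a, ..., a, b, ..., b)`.  The last part describes how the property
depends on the interval, with an example. -/
theorem result : (∀ (N : ℕ) (lam mu : Fin N → ℕ), Antitone lam → Antitone mu →
    (schur lam * alternant (fun j : Fin N => N - 1 - j) = alternant (exponents lam)) ∧
    (∀ (a b : ℝ) (k : ℕ), 0 < a → a < b → k ≤ N →
      (ratio lam mu (fun _ => 1) ≤ ratio lam mu (fun i : Fin N => if (i : ℕ) < k then a else b) ↔
        b ^ (∑ i, mu i) * subsetSum k (exponents mu) (a / b) ≤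
          b ^ (∑ i, lam i) * subsetSum k (exponents lam) (a / b))) ∧
    (∀ I : Set ℝ, I.OrdConnected → I ⊆ Set.Ioi 0 → (1 : ℝ) ∈ I → I.Nontrivial →
      ((0 < sInf I ∧ BddAbove I) →
        (MinimizedAtOne lam mu I ↔ ∀ k ≤ N,
          sSup I ^ (∑ i, mu i) * subsetSum k (exponents mu) (sInf I / sSup I) ≤
            sSup I ^ (∑ i, lam i) * subsetSum k (exponents lam) (sInf I / sSup I))) ∧
      (I = Set.Ioc 0 1 →
        (MinimizedAtOne lam mu I ↔
          ∀ k ≤ N, ∑ i ∈ univ.filter (fun i : Fin N => N - k ≤ (i : ℕ)), lam i ≤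
            ∑ i ∈ univ.filter (fun i : Fin N => N - k ≤ (i : ℕ)), mu i)) ∧
      (I = Set.Ici 1 →
        (MinimizedAtOne lam mu I ↔
          ∀ k ≤ N, ∑ i ∈ univ.filter (fun i : Fin N => (i : ℕ) < k), mu i ≤
            ∑ i ∈ univ.filter (fun i : Fin N => (i : ℕ) < k), lam i)) ∧
      (¬ (0 < sInf I ∧ BddAbove I) → I ≠ Set.Ioc 0 1 → I ≠ Set.Ici 1 →
        (MinimizedAtOne lam mu I ↔
          (∀ k ≤ N, ∑ i ∈ univ.filter (fun i : Fin N => (i : ℕ) < k), mu i ≤
            ∑ i ∈ univ.filter (fun i : Fin N => (i : ℕ) < k), lam i) ∧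
          ∑ i, lam i = ∑ i, mu i))) ∧
    ∃ t u : ℝ, 0 ≤ t ∧ t ≤ 1 ∧ 0 ≤ u ∧ u ≤ 1 ∧ (∑ i, lam i = ∑ i, mu i → t = u) ∧
      ∀ I : Set ℝ, I.OrdConnected → I ⊆ Set.Ioi 0 → (1 : ℝ) ∈ I → I.Nontrivial →
        ((∀ x ∈ I, x ≤ 1) → (MinimizedAtOne lam mu I ↔ t ≤ sInf I)) ∧
        ((∀ x ∈ I, 1 ≤ x) → (MinimizedAtOne lam mu I ↔
          u = 0 ∨ (BddAbove I ∧ u ≤ (sSup I)⁻¹))) ∧
        ((∃ x ∈ I, x < 1) → (∃ x ∈ I, 1 < x) → (MinimizedAtOne lam mu I ↔
          ∑ i, lam i = ∑ i, mu i ∧ (t = 0 ∨ (BddAbove I ∧ t ≤ sInf I / sSup I))))) ∧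
    MinimizedAtOne ![7, 2, 2] ![5, 5, 1] (Set.Icc (3 / 4) (3 / 2)) ∧
    ¬ MinimizedAtOne ![7, 2, 2] ![5, 5, 1] (Set.Icc (1 / 2) 2) := by
  refine ⟨?_, ?_, ?_⟩
  rotate_left
  · rw [minimized_iff _ _ Pool.Agent.Helper56.SchurExample.anti_lam
      Pool.Agent.Helper56.SchurExample.anti_mu]
    exact Pool.Agent.Helper56.SchurExample.example_min
  · rw [minimized_iff _ _ Pool.Agent.Helper56.SchurExample.anti_lam
      Pool.Agent.Helper56.SchurExample.anti_mu]
    exact Pool.Agent.Helper56.SchurExample.example_not_min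
  intro N lam mu hl hm
  refine ⟨schur_spec lam hl, fun a b k ha hab hk => vertex_iff lam mu hl hm a b ha hab k hk,
    ?_, ?_⟩
  · intro I hI hI0 h1 hn
    refine ⟨?_, ?_, ?_, ?_⟩
    · rintro ⟨hpos, hb⟩
      rw [minimized_iff lam mu hl hm]
      exact Pool.Agent.Helper56.SchurExplicit.class_bounded lam mu hl hm I hI0 h1 hn hpos hb
    · intro h
      rw [minimized_iff lam mu hl hm, h]
      exact Pool.Agent.Helper56.SchurClass.class_Ioc lam mu hl hm
    · intro h
      rw [minimized_iff lam mu hl hm, h]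
      exact Pool.Agent.Helper56.SchurClass.class_Ici lam mu hl hm
    · intro h2 h3 h4
      rw [minimized_iff lam mu hl hm]
      exact Pool.Agent.Helper56.SchurClass.class_rest lam mu hl hm I hI hI0 h1 h2 h3 h4
  · obtain ⟨t, u, ht, ht1, hu, hu1, htu, h⟩ :=
      Pool.Agent.Helper56.SchurThreshold.thresholds lam mu hl hm
    refine ⟨t, u, ht, ht1, hu, hu1, htu, fun I hI hI0 h1 hn => ?_⟩
    rw [minimized_iff lam mu hl hm]
    exact h I hI hI0 h1 hn

end Pool.Agent.Results.MP_0f3876_co.SchurRatioIntervals
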